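import Mathlib

/-!
# The free solution of the Yang-Baxter equation is never injective

For every non-empty set `X` the free (non-degenerate, set-theoretic) solution on `X` exists, and
its canonical map to its structure group is not injective.

Given an element `x` of a solution put `t = lambda_x⁻¹ (x)`.  The defining relation of the
structure group for the pair `(x, t)` reads `x t = x rho_t(x)`, so that `t` and `rho_t(x)` have the
same image.  In the Lyubashenko solution `(x, y) ↦ (y, sigma x)` one has `t = x` and
`rho_t(x) = sigma x`, so the two elements are distinct in the free solution.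
-/

namespace Pool.Agent.Results.MP_f0defb_al.FreeSolutionNotInjective

universe u

/-- The map `r × id` on triples. -/
def r12 {Y : Type u} (r : Y × Y → Y × Y) : Y × Y × Y → Y × Y × Y :=
  fun p => ((r (p.1, p.2.1)).1, (r (p.1, p.2.1)).2, p.2.2)

/-- The map `id × r` on triples. -/
def r23 {Y : Type u} (r : Y × Y → Y × Y) : Y × Y × Y → Y × Y × Y :=
  fun p => (p.1, r p.2)

/-- `(Y, r)` is a (non-degenerate, set-theoretic) solution of the Yang-Baxter equation: the braid
relation holds and, writing `r (x, y) = (lambda_x y, rho_y x)`, all maps `lambda_x` and `rho_y`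
are bijections. -/
structure IsSolution {Y : Type u} (r : Y × Y → Y × Y) : Prop where
  braid : r12 r ∘ r23 r ∘ r12 r = r23 r ∘ r12 r ∘ r23 r
  lambda_bijective : ∀ x : Y, Function.Bijective fun y : Y => (r (x, y)).1
  rho_bijective : ∀ y : Y, Function.Bijective fun x : Y => (r (x, y)).2

/-- `f` is a morphism from `(Y, r)` to `(Z, s)`. -/
def IsMorphism {Y Z : Type u} (r : Y × Y → Y × Y) (s : Z × Z → Z × Z) (f : Y → Z) : Prop :=
  Prod.map f f ∘ r = s ∘ Prod.map f f

/-- `(F, r)` together with `i : X → F` is a free solution on the set `X`: every map from `X` to a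
solution extends uniquely to a morphism. -/
structure IsFreeSolution {X F : Type u} (r : F × F → F × F) (i : X → F) : Prop where
  isSolution : IsSolution r
  extend : ∀ (Z : Type u) (s : Z × Z → Z × Z), IsSolution s → ∀ f : X → Z,
    ∃! g : F → Z, IsMorphism r s g ∧ g ∘ i = f

/-- The relators `x y (lambda_x(y) rho_y(x))⁻¹` of the structure group. -/
def relators {Y : Type u} (r : Y × Y → Y × Y) : Set (FreeGroup Y) :=
  Set.range fun p : Y × Y => FreeGroup.of p.1 * FreeGroup.of p.2 *
    (FreeGroup.of (r p).1 * FreeGroup.of (r p).2)⁻¹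

/-- The structure group `G(Y, r)`, generated by `Y` with relations
`x y = lambda_x(y) rho_y(x)`. -/
abbrev StructureGroup {Y : Type u} (r : Y × Y → Y × Y) : Type u := PresentedGroup (relators r)

/-- The canonical map `Y → G(Y, r)`. -/
def canonicalMap {Y : Type u} (r : Y × Y → Y × Y) : Y → StructureGroup r :=
  fun y => PresentedGroup.of y

/-! ### Two elements with the same image -/

lemma rel {Y : Type u} (r : Y × Y → Y × Y) (x y : Y) :
    canonicalMap r x * canonicalMap r y =
      canonicalMap r (r (x, y)).1 * canonicalMap r (r (x, y)).2 := by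
  have h : (PresentedGroup.mk (relators r)) (FreeGroup.of x * FreeGroup.of y *
      (FreeGroup.of (r (x, y)).1 * FreeGroup.of (r (x, y)).2)⁻¹) = 1 := by
    apply PresentedGroup.mk_eq_one_iff.2
    exact Subgroup.subset_normalClosure ⟨(x, y), rfl⟩
  rw [map_mul, map_inv, mul_inv_eq_one, map_mul, map_mul] at h
  exact h

lemma same_image {Y : Type u} (r : Y × Y → Y × Y) (x t : Y) (h : (r (x, t)).1 = x) :
    canonicalMap r t = canonicalMap r (r (x, t)).2 := by
  have h1 := rel r x t
  rw [h] at h1
  exact mul_left_cancel h1

/-! ### The Lyubashenko solution on two points -/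

/-- The solution `(x, y) ↦ (y, not x)` on the two-element set. -/
def lyu : ULift.{u} Bool × ULift.{u} Bool → ULift.{u} Bool × ULift.{u} Bool :=
  fun p => (p.2, ULift.up (!p.1.down))

lemma lyu_isSolution : IsSolution lyu.{u} := by
  refine ⟨?_, ?_, ?_⟩
  · funext ⟨⟨a⟩, ⟨b⟩, ⟨c⟩⟩
    simp [r12, r23, lyu]
  · intro x
    exact Function.bijective_id
  · intro y
    constructor
    · rintro ⟨a⟩ ⟨b⟩ h
      have h2 : (!a) = (!b) := congrArg ULift.down h
      have h3 : a = b := by simpa using h2
      rw [h3]
    · rintro ⟨a⟩
      exact ⟨⟨!a⟩, by simp [lyu]⟩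

lemma not_injective {X F : Type u} [Nonempty X] (r : F × F → F × F) (i : X → F)
    (h : IsFreeSolution r i) : ¬ Function.Injective (canonicalMap r) := by
  intro hinj
  obtain ⟨x0⟩ := ‹Nonempty X›
  obtain ⟨t, ht⟩ := (h.isSolution.lambda_bijective (i x0)).2 (i x0)
  have ht' : (r (i x0, t)).1 = i x0 := ht
  have h1 : t = (r (i x0, t)).2 := hinj (same_image r (i x0) t ht')
  obtain ⟨g, ⟨hg, -⟩, -⟩ := h.extend _ lyu lyu_isSolution (fun _ => ⟨true⟩)
  have h2 : (g (r (i x0, t)).1, g (r (i x0, t)).2) = lyu (g (i x0), g t) :=
    congrFun hg (i x0, t)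
  rw [ht', ← h1] at h2
  have h3 : g (i x0) = g t := congrArg Prod.fst h2
  have h4 : g t = ULift.up (!(g (i x0)).down) := congrArg Prod.snd h2
  rw [h3] at h4
  have h5 : (g t).down = !(g t).down := congrArg ULift.down h4
  cases h6 : (g t).down <;> simp [h6] at h5

/-! ### Existence of the free solution -/

/-- Terms in the operations `lambda`, `rho` and their inverses. -/
inductive Term (X : Type u) : Type u
  | var : X → Term X
  | lam : Term X → Term X → Term X
  | rho : Term X → Term X → Term X
  | lamInv : Term X → Term X → Term X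
  | rhoInv : Term X → Term X → Term X

variable {X : Type u}

/-- Evaluation of a term in a solution. -/
noncomputable def ev {Z : Type u} (s : Z × Z → Z × Z) (hs : IsSolution s) (f : X → Z) :
    Term X → Z
  | .var x => f x
  | .lam a b => (s (ev s hs f a, ev s hs f b)).1
  | .rho a b => (s (ev s hs f a, ev s hs f b)).2
  | .lamInv a b => (Equiv.ofBijective _ (hs.lambda_bijective (ev s hs f a))).symm (ev s hs f b)
  | .rhoInv a b => (Equiv.ofBijective _ (hs.rho_bijective (ev s hs f b))).symm (ev s hs f a)

/-- Two terms are identified when they agree in all solutions. -/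
def termSetoid (X : Type u) : Setoid (Term X) where
  r a b := ∀ (Z : Type u) (s : Z × Z → Z × Z) (hs : IsSolution s) (f : X → Z),
    ev s hs f a = ev s hs f b
  iseqv := ⟨fun _ _ _ _ _ => rfl, fun h Z s hs f => (h Z s hs f).symm,
    fun h h' Z s hs f => (h Z s hs f).trans (h' Z s hs f)⟩

/-- The carrier of the free solution. -/
def FSol (X : Type u) : Type u := Quotient (termSetoid X)

/-- Evaluation on the free solution. -/
noncomputable def evq {Z : Type u} (s : Z × Z → Z × Z) (hs : IsSolution s) (f : X → Z) :
    FSol X → Z :=
  Quotient.lift (ev s hs f) fun _ _ h => h Z s hs f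

/-- Extensionality: elements of `FSol X` are separated by evaluations. -/
lemma fsol_ext {a b : FSol X} (h : ∀ (Z : Type u) (s : Z × Z → Z × Z) (hs : IsSolution s)
    (f : X → Z), evq s hs f a = evq s hs f b) : a = b := by
  induction a using Quotient.inductionOn with
  | h a =>
    induction b using Quotient.inductionOn with
    | h b => exact Quotient.sound h

/-- `lambda` on the free solution. -/
def fl : FSol X → FSol X → FSol X :=
  Quotient.map₂ Term.lam fun _ _ h _ _ h' Z s hs f => by
    change (s (ev s hs f _, ev s hs f _)).1 = (s (ev s hs f _, ev s hs f _)).1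
    rw [h Z s hs f, h' Z s hs f]

/-- `rho` on the free solution. -/
def fr : FSol X → FSol X → FSol X :=
  Quotient.map₂ Term.rho fun _ _ h _ _ h' Z s hs f => by
    change (s (ev s hs f _, ev s hs f _)).2 = (s (ev s hs f _, ev s hs f _)).2
    rw [h Z s hs f, h' Z s hs f]

/-- Inverse of `lambda` on the free solution. -/
def fli : FSol X → FSol X → FSol X :=
  Quotient.map₂ Term.lamInv fun a a' h b b' h' Z s hs f => by
    have h1 := h Z s hs f
    have h2 := h' Z s hs f
    simp only [ev]
    rw [Equiv.symm_apply_eq, h2]
    simp only [Equiv.ofBijective_apply]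
    rw [h1]
    exact ((Equiv.ofBijective _ (hs.lambda_bijective (ev s hs f a'))).apply_symm_apply _).symm

/-- Inverse of `rho` on the free solution. -/
def fri : FSol X → FSol X → FSol X :=
  Quotient.map₂ Term.rhoInv fun a a' h b b' h' Z s hs f => by
    have h1 := h Z s hs f
    have h2 := h' Z s hs f
    simp only [ev]
    rw [Equiv.symm_apply_eq, h1]
    simp only [Equiv.ofBijective_apply]
    rw [h2]
    exact ((Equiv.ofBijective _ (hs.rho_bijective (ev s hs f b'))).apply_symm_apply _).symm

/-- The map `r` of the free solution. -/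
def fsr (X : Type u) : FSol X × FSol X → FSol X × FSol X := fun p => (fl p.1 p.2, fr p.1 p.2)

section
variable {Z : Type u} (s : Z × Z → Z × Z) (hs : IsSolution s) (f : X → Z)

lemma evq_fl (a b : FSol X) : evq s hs f (fl a b) = (s (evq s hs f a, evq s hs f b)).1 := by
  induction a using Quotient.inductionOn
  induction b using Quotient.inductionOn
  rfl

lemma evq_fr (a b : FSol X) : evq s hs f (fr a b) = (s (evq s hs f a, evq s hs f b)).2 := by
  induction a using Quotient.inductionOn
  induction b using Quotient.inductionOn
  rfl

lemma evq_fli (a b : FSol X) : (s (evq s hs f a, evq s hs f (fli a b))).1 = evq s hs f b := by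
  induction a using Quotient.inductionOn with
  | h a =>
    induction b using Quotient.inductionOn with
    | h b => exact (Equiv.ofBijective _ (hs.lambda_bijective (ev s hs f a))).apply_symm_apply _

lemma evq_fri (a b : FSol X) : (s (evq s hs f (fri a b), evq s hs f b)).2 = evq s hs f a := by
  induction a using Quotient.inductionOn with
  | h a =>
    induction b using Quotient.inductionOn with
    | h b => exact (Equiv.ofBijective _ (hs.rho_bijective (ev s hs f b))).apply_symm_apply _

lemma evq_fsr (p : FSol X × FSol X) :
    Prod.map (evq s hs f) (evq s hs f) (fsr X p) = s (evq s hs f p.1, evq s hs f p.2) := by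
  refine Prod.ext ?_ ?_
  · exact evq_fl s hs f _ _
  · exact evq_fr s hs f _ _

end

lemma fsr_isSolution : IsSolution (fsr X) := by
  refine ⟨?_, ?_, ?_⟩
  · have key : ∀ {Z : Type u} (s : Z × Z → Z × Z) (hs : IsSolution s) (f : X → Z)
        (p : FSol X × FSol X × FSol X),
        Prod.map (evq s hs f) (Prod.map (evq s hs f) (evq s hs f)) (r12 (fsr X) p) =
          r12 s (Prod.map (evq s hs f) (Prod.map (evq s hs f) (evq s hs f)) p) ∧
        Prod.map (evq s hs f) (Prod.map (evq s hs f) (evq s hs f)) (r23 (fsr X) p) =
          r23 s (Prod.map (evq s hs f) (Prod.map (evq s hs f) (evq s hs f)) p) := by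
      rintro Z s hs f ⟨a, b, c⟩
      constructor
      · simp [r12, fsr, evq_fl, evq_fr]
      · simp [r23, fsr, evq_fl, evq_fr]
    funext p
    have main : ∀ {Z : Type u} (s : Z × Z → Z × Z) (hs : IsSolution s) (f : X → Z),
        Prod.map (evq s hs f) (Prod.map (evq s hs f) (evq s hs f))
          ((r12 (fsr X) ∘ r23 (fsr X) ∘ r12 (fsr X)) p) =
        Prod.map (evq s hs f) (Prod.map (evq s hs f) (evq s hs f))
          ((r23 (fsr X) ∘ r12 (fsr X) ∘ r23 (fsr X)) p) := by
      intro Z s hs f
      simp only [Function.comp_apply]
      rw [(key s hs f _).1, (key s hs f _).2, (key s hs f _).1, (key s hs f _).2,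
        (key s hs f _).1, (key s hs f _).2]
      exact congrFun hs.braid _
    refine Prod.ext ?_ (Prod.ext ?_ ?_)
    · exact fsol_ext fun Z s hs f => congrArg Prod.fst (main s hs f)
    · exact fsol_ext fun Z s hs f => congrArg (fun q => q.2.1) (main s hs f)
    · exact fsol_ext fun Z s hs f => congrArg (fun q => q.2.2) (main s hs f)
  · intro x
    constructor
    · intro a b hab
      refine fsol_ext fun Z s hs f => ?_
      have h : evq s hs f (fl x a) = evq s hs f (fl x b) := congrArg _ hab
      rw [evq_fl, evq_fl] at h
      exact (hs.lambda_bijective _).1 h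
    · intro b
      refine ⟨fli x b, fsol_ext fun Z s hs f => ?_⟩
      exact (evq_fl s hs f x (fli x b)).trans (evq_fli s hs f x b)
  · intro y
    constructor
    · intro a b hab
      refine fsol_ext fun Z s hs f => ?_
      have h : evq s hs f (fr a y) = evq s hs f (fr b y) := congrArg _ hab
      rw [evq_fr, evq_fr] at h
      exact (hs.rho_bijective _).1 h
    · intro b
      refine ⟨fri b y, fsol_ext fun Z s hs f => ?_⟩
      exact (evq_fr s hs f (fri b y) y).trans (evq_fri s hs f b y)

/-- The inclusion of the generators. -/
def fi (X : Type u) : X → FSol X := fun x => Quotient.mk _ (Term.var x)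

lemma fsr_isFree : IsFreeSolution (fsr X) (fi X) := by
  refine ⟨fsr_isSolution, ?_⟩
  intro Z s hs f
  refine ⟨evq s hs f, ⟨?_, ?_⟩, ?_⟩
  · funext p
    exact evq_fsr s hs f p
  · funext x
    rfl
  · rintro g ⟨hg, hgi⟩
    have hg' : ∀ a b : FSol X, (g (fl a b), g (fr a b)) = s (g a, g b) :=
      fun a b => congrFun hg (a, b)
    funext a
    induction a using Quotient.inductionOn with
    | h t =>
      induction t with
      | var x => exact congrFun hgi x
      | lam a b iha ihb =>
        have h1 := congrArg Prod.fst (hg' (Quotient.mk _ a) (Quotient.mk _ b))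
        refine h1.trans ?_
        rw [iha, ihb]
        rfl
      | rho a b iha ihb =>
        have h1 := congrArg Prod.snd (hg' (Quotient.mk _ a) (Quotient.mk _ b))
        refine h1.trans ?_
        rw [iha, ihb]
        rfl
      | lamInv a b iha ihb =>
        have h1 := congrArg Prod.fst (hg' (Quotient.mk _ a) (fli (Quotient.mk _ a)
          (Quotient.mk _ b)))
        have h2 : fl (Quotient.mk (termSetoid X) a) (fli (Quotient.mk _ a) (Quotient.mk _ b)) =
            Quotient.mk _ b :=
          fsol_ext fun Z s hs f => (evq_fl s hs f _ _).trans (evq_fli s hs f _ _)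
        simp only [h2] at h1
        rw [ihb, iha] at h1
        have h3 := evq_fli s hs f (Quotient.mk _ a) (Quotient.mk _ b)
        exact (hs.lambda_bijective (evq s hs f (Quotient.mk _ a))).1 (h1.symm.trans h3.symm)
      | rhoInv a b iha ihb =>
        have h1 := congrArg Prod.snd (hg' (fri (Quotient.mk _ a) (Quotient.mk _ b))
          (Quotient.mk _ b))
        have h2 : fr (fri (Quotient.mk (termSetoid X) a) (Quotient.mk _ b)) (Quotient.mk _ b) =
            Quotient.mk _ a :=
          fsol_ext fun Z s hs f => (evq_fr s hs f _ _).trans (evq_fri s hs f _ _)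
        simp only [h2] at h1
        rw [ihb, iha] at h1
        have h3 := evq_fri s hs f (Quotient.mk _ a) (Quotient.mk _ b)
        exact (hs.rho_bijective (evq s hs f (Quotient.mk _ b))).1 (h1.symm.trans h3.symm)

/-- For every non-empty set `X`, the free solution on `X` exists, and no free solution on `X` is
injective. -/
theorem result (X : Type u) [Nonempty X] :
    (∃ (F : Type u) (r : F × F → F × F) (i : X → F), IsFreeSolution r i) ∧
    ∀ (F : Type u) (r : F × F → F × F) (i : X → F), IsFreeSolution r i →
      ¬ Function.Injective (canonicalMap r) :=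
  ⟨⟨FSol X, fsr X, fi X, fsr_isFree⟩, fun _ r i h => not_injective r i h⟩

end Pool.Agent.Results.MP_f0defb_al.FreeSolutionNotInjective
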